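import Pool.Agent.N869.GK.L.Stm

/-!
# The number of pairs that satisfy the local conditions at the bad places
-/

set_option autoImplicit false

namespace Pool.Agent.N558.GK

open Finset Pool.Agent.N869.GK Module

theorem dot_add_left {r : ℕ} (x y z : Gr r) : dot (x + y) z = dot x z + dot y z := by
  simp [dot, add_mul, sum_add_distrib]

theorem dot_add_right {r : ℕ} (x y z : Gr r) : dot x (y + z) = dot x y + dot x z := by
  simp [dot, mul_add, sum_add_distrib]

theorem dot_smul_left {r : ℕ} (c : ZMod 2) (x y : Gr r) : dot (c • x) y = c * dot x y := by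
  simp [dot, mul_assoc, mul_sum]

theorem dot_smul_right {r : ℕ} (c : ZMod 2) (x y : Gr r) : dot x (c • y) = c * dot x y := by
  simp [dot, mul_left_comm, mul_sum]

theorem dot_zero_left {r : ℕ} (x : Gr r) : dot 0 x = 0 := by simp [dot]

theorem dot_zero_right {r : ℕ} (x : Gr r) : dot x 0 = 0 := by simp [dot]

theorem dot_comm {r : ℕ} (x y : Gr r) : dot x y = dot y x := by simp [dot, mul_comm]

theorem dot_single {r : ℕ} (i : Fin r) (x : Gr r) : dot (Pi.single i 1) x = x i := by
  simp [dot, Pi.single_apply]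

/-- the bilinear form, explicitly -/
theorem bS_eq {r : ℕ} (D : Par r) (X Y : Hr r) : bS D X Y =
    dot (X.1 0) (Y.2 1) + dot (Y.1 0) (X.2 1) + dot (X.1 1) (Y.2 0) + dot (Y.1 1) (X.2 0) +
      dot D.em (X.2 0) * dot D.em (Y.2 1) + dot D.em (Y.2 0) * dot D.em (X.2 1) := by
  unfold bS qS
  simp only [Prod.fst_add, Prod.snd_add, Pi.add_apply, dot_add_left, dot_add_right]
  have h2 : (2 : ZMod 2) = 0 := rfl
  generalize dot (X.1 0) (X.2 1) = a1
  generalize dot (X.1 1) (X.2 0) = a2
  generalize dot (Y.1 0) (Y.2 1) = a3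
  generalize dot (Y.1 1) (Y.2 0) = a4
  generalize dot D.em (X.2 0) = a5
  generalize dot D.em (X.2 1) = a6
  generalize dot D.em (Y.2 0) = a7
  generalize dot D.em (Y.2 1) = a8
  generalize dot D.ll (X.2 0) = a9
  generalize dot D.ll (X.2 1) = a10
  generalize dot D.ll (Y.2 0) = a11
  generalize dot D.ll (Y.2 1) = a12
  linear_combination (a1 + a2 + a3 + a4 + a5 * a6 + a7 * a8 + a9 + a10 + a11 + a12 + a6 + a8) * h2

/-- the bilinear form as a linear map -/
def BB {r : ℕ} (D : Par r) : LinearMap.BilinForm (ZMod 2) (Hr r) :=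
  LinearMap.mk₂ (ZMod 2) (bS D)
    (by
      intro X X' Y
      rw [bS_eq, bS_eq, bS_eq]
      simp only [Prod.fst_add, Prod.snd_add, Pi.add_apply, dot_add_left, dot_add_right]
      ring)
    (by
      intro c X Y
      rw [bS_eq, bS_eq]
      simp only [Prod.smul_fst, Prod.smul_snd, Pi.smul_apply, dot_smul_left, dot_smul_right,
        smul_eq_mul]
      ring)
    (by
      intro X Y Y'
      rw [bS_eq, bS_eq, bS_eq]
      simp only [Prod.fst_add, Prod.snd_add, Pi.add_apply, dot_add_left, dot_add_right]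
      ring)
    (by
      intro c X Y
      rw [bS_eq, bS_eq]
      simp only [Prod.smul_fst, Prod.smul_snd, Pi.smul_apply, dot_smul_left, dot_smul_right,
        smul_eq_mul]
      ring)

theorem BB_apply {r : ℕ} (D : Par r) (X Y : Hr r) : BB D X Y = bS D X Y := rfl

theorem bS_comm {r : ℕ} (D : Par r) (X Y : Hr r) : bS D X Y = bS D Y X := by
  rw [bS_eq, bS_eq]; ring

theorem sep {r : ℕ} (D : Par r) (X : Hr r) (h : ∀ Y, bS D X Y = 0) : X = 0 := by
  have h1 : ∀ i, X.2 1 i = 0 := by
    intro i
    have := h (Pi.single 0 (Pi.single i 1), 0)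
    rw [bS_eq] at this
    simpa [dot_zero_left, dot_zero_right, dot_single] using this
  have h2 : ∀ i, X.2 0 i = 0 := by
    intro i
    have := h (Pi.single 1 (Pi.single i 1), 0)
    rw [bS_eq] at this
    simpa [dot_zero_left, dot_zero_right, dot_single] using this
  have e1 : X.2 1 = 0 := funext h1
  have e2 : X.2 0 = 0 := funext h2
  have h3 : ∀ i, X.1 0 i = 0 := by
    intro i
    have := h (0, Pi.single 1 (Pi.single i 1))
    rw [bS_eq, e1, e2] at this
    simpa [dot_zero_left, dot_zero_right, dot_comm (X.1 0), dot_single] using this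
  have h4 : ∀ i, X.1 1 i = 0 := by
    intro i
    have := h (0, Pi.single 0 (Pi.single i 1))
    rw [bS_eq, e1, e2] at this
    simpa [dot_zero_left, dot_zero_right, dot_comm (X.1 1), dot_single] using this
  ext c i
  · fin_cases c
    · exact h3 i
    · exact h4 i
  · fin_cases c
    · exact h2 i
    · exact h1 i

theorem nondeg {r : ℕ} (D : Par r) : (BB D).Nondegenerate :=
  ⟨fun X h => sep D X h, fun X h => sep D X fun Y => (bS_comm D X Y).trans (h Y)⟩

/-- the subgroup as a subspace -/
def WW {r : ℕ} (D : Par r) : Submodule (ZMod 2) (Hr r) := AddSubgroup.toZModSubmodule 2 D.W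

theorem mem_WW {r : ℕ} (D : Par r) (X : Hr r) : X ∈ WW D ↔ X ∈ D.W := Iff.rfl

theorem orth {r : ℕ} {D : Par r} (h : Ok D) : (BB D).orthogonal (WW D) = WW D := by
  ext Y
  rw [LinearMap.BilinForm.mem_orthogonal_iff]
  constructor
  · intro hY
    exact h.max Y fun X hX => hY X hX
  · intro hY X hX
    show bS D X Y = 0
    unfold bS
    rw [h.sing _ (D.W.add_mem hX hY), h.sing _ hX, h.sing _ hY]
    rfl

theorem finrank_Hr (r : ℕ) : finrank (ZMod 2) (Hr r) = 4 * r := by
  rw [finrank_prod, finrank_pi_fintype]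
  simp
  ring

theorem finrank_WW {r : ℕ} {D : Par r} (h : Ok D) : finrank (ZMod 2) (WW D) = 2 * r := by
  have h1 := LinearMap.BilinForm.finrank_orthogonal (nondeg D) (WW D)
  rw [orth h, finrank_Hr] at h1
  have h2 := (WW D).finrank_le
  rw [finrank_Hr] at h2
  omega

theorem t_KC : S_KC := by
  intro r D hD R _ lab hlab
  classical
  -- the linear map
  let φ : ((Fin 2 → Gr r) × (R → V)) →ₗ[ZMod 2] Hr r :=
    { toFun := fun x => Xl lab univ x.1 x.2
      map_add' := by
        intro x y
        refine Prod.ext rfl ?_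
        funext c
        simp only [Xl, Prod.snd_add, Pi.add_apply, add_smul, sum_add_distrib]
      map_smul' := by
        intro a x
        refine Prod.ext rfl ?_
        funext c
        simp only [Xl, Prod.smul_snd, Pi.smul_apply, smul_eq_mul, mul_smul, smul_sum,
          RingHom.id_apply] }
  have hφ : Function.Surjective φ := by
    rintro ⟨s, g⟩
    choose i hi using fun c : Fin 2 => hlab (g c)
    refine ⟨(s, fun j c => if j = i c then 1 else 0), Prod.ext rfl ?_⟩
    funext c
    show ∑ j ∈ univ, (if j = i c then (1 : ZMod 2) else 0) • lab j = g c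
    simp [hi]
  have h1 : LinearMap.ker ((WW D).mkQ.comp φ) = (WW D).comap φ := by
    rw [LinearMap.ker_comp, Submodule.ker_mkQ]
  have h2 := LinearMap.finrank_range_add_finrank_ker ((WW D).mkQ.comp φ)
  have h3 : LinearMap.range ((WW D).mkQ.comp φ) = ⊤ :=
    LinearMap.range_eq_top.2 ((Submodule.mkQ_surjective _).comp hφ)
  rw [h3, finrank_top, h1] at h2
  have h4 := (WW D).finrank_quotient_add_finrank
  rw [finrank_WW hD, finrank_Hr] at h4
  have h5 : finrank (ZMod 2) ((Fin 2 → Gr r) × (R → V)) = 2 * r + 2 * Fintype.card R := by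
    have h51 : finrank (ZMod 2) (Fin 2 → Gr r) = 2 * r := by
      rw [finrank_pi_fintype]
      simp
    have h52 : finrank (ZMod 2) (R → V) = 2 * Fintype.card R := by
      rw [finrank_pi_fintype]
      simp only [finrank_fintype_fun_eq_card, Fintype.card_fin, sum_const, card_univ,
        smul_eq_mul]
      ring
    rw [finrank_prod, h51, h52]
  rw [h5] at h2
  have h6 : finrank (ZMod 2) ((WW D).comap φ) = 2 * Fintype.card R := by omega
  have h7 := Module.natCard_eq_pow_finrank (K := ZMod 2) (V := (WW D).comap φ)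
  rw [h6, Nat.card_zmod, pow_mul] at h7
  exact h7

end Pool.Agent.N558.GK
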